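import Pool.Agent.U280.OE.Stm
import Pool.Agent.Helper717.LT.P_final_thm

/-!
# Project OE, package I: systems with `∫ u_n u_m = 0`
-/

set_option autoImplicit false

open MeasureTheory Set Filter Topology

namespace Pool.Agent.U688.OE

open Pool.Agent.U280.OE

theorem wgradC_conj {d : ℕ} {u : (Fin d → ℝ) → ℂ} {g : Fin d → (Fin d → ℝ) → ℂ}
    (h : LTd.WGradC u g) :
    LTd.WGradC (fun x => (starRingEnd ℂ) (u x)) (fun k x => (starRingEnd ℂ) (g k x)) := by
  refine ⟨?_, ?_, ?_⟩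
  · exact h.f2.star
  · intro k
    exact (h.g2 k).star
  · intro k φ hφ hc
    have h1 := congrArg (starRingEnd ℂ) (h.weak k φ hφ hc)
    rw [← integral_conj, map_neg, ← integral_conj] at h1
    simpa only [map_mul, Complex.conj_ofReal] using h1

theorem t_I : T_I := by
  intro d hd N u g hu ho hz
  let U : Fin (N + N) → (Fin d → ℝ) → ℂ :=
    Fin.append u (fun i x => (starRingEnd ℂ) (u i x))
  let G : Fin (N + N) → Fin d → (Fin d → ℝ) → ℂ :=
    Fin.append g (fun i k x => (starRingEnd ℂ) (g i k x))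
  have hUl : ∀ i, U (Fin.castAdd N i) = u i := fun i => Fin.append_left _ _ i
  have hUr : ∀ i, U (Fin.natAdd N i) = fun x => (starRingEnd ℂ) (u i x) :=
    fun i => Fin.append_right _ _ i
  have hGl : ∀ i, G (Fin.castAdd N i) = g i := fun i => Fin.append_left _ _ i
  have hGr : ∀ i, G (Fin.natAdd N i) = fun k x => (starRingEnd ℂ) (g i k x) :=
    fun i => Fin.append_right _ _ i
  have hW : ∀ i, LTd.WGradC (U i) (G i) := by
    intro i
    refine Fin.addCases (fun i => ?_) (fun i => ?_) i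
    · rw [hUl, hGl]
      exact hu i
    · rw [hUr, hGr]
      exact wgradC_conj (hu i)
  have hO : ∀ i j, ∫ x, (starRingEnd ℂ) (U i x) * U j x = if i = j then 1 else 0 := by
    intro i j
    refine Fin.addCases (fun i => ?_) (fun i => ?_) i
    · refine Fin.addCases (fun j => ?_) (fun j => ?_) j
      · rw [hUl, hUl, ho i j]
        simp
      · rw [hUl, hUr]
        have h1 := congrArg (starRingEnd ℂ) (hz i j)
        rw [← integral_conj, map_zero] at h1
        have h2 : (Fin.castAdd N i : Fin (N + N)) ≠ Fin.natAdd N j := by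
          intro h
          have := congrArg Fin.val h
          simp at this
          omega
        rw [if_neg h2]
        simpa only [map_mul] using h1
    · refine Fin.addCases (fun j => ?_) (fun j => ?_) j
      · rw [hUr, hUl]
        have h2 : (Fin.natAdd N i : Fin (N + N)) ≠ Fin.castAdd N j := by
          intro h
          have := congrArg Fin.val h
          simp at this
          omega
        rw [if_neg h2]
        simpa only [Complex.conj_conj] using hz i j
      · rw [hUr, hUr]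
        have h1 := congrArg (starRingEnd ℂ) (ho i j)
        rw [← integral_conj] at h1
        have h3 : ((Fin.natAdd N i : Fin (N + N)) = Fin.natAdd N j) ↔ i = j := by
          constructor
          · intro h
            have := congrArg Fin.val h
            simp at this
            exact Fin.ext this
          · intro h
            rw [h]
        simp only [map_mul, apply_ite (starRingEnd ℂ), map_one, map_zero] at h1
        rw [h1]
        by_cases hij : i = j
        · rw [if_pos hij, if_pos (h3.2 hij)]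
        · rw [if_neg hij, if_neg (fun h => hij (h3.1 h))]
  have hH := LTd.final_thm d hd (N + N) U G hW hO
  have hsum : ∀ x, ∑ i, ‖U i x‖ ^ 2 = 2 * ∑ i, ‖u i x‖ ^ 2 := by
    intro x
    rw [Fin.sum_univ_add]
    simp only [hUl, hUr, RCLike.norm_conj]
    ring
  have hK : ∑ i, ∑ k, ∫ x, ‖G i k x‖ ^ 2 = 2 * ∑ i, ∑ k, ∫ x, ‖g i k x‖ ^ 2 := by
    rw [Fin.sum_univ_add]
    simp only [hGl, hGr, RCLike.norm_conj]
    ring
  have hd0 : (0 : ℝ) < d := by exact_mod_cast hd
  have hpow : ∀ x, (2 * ∑ i, ‖u i x‖ ^ 2) ^ (1 + 2 / (d : ℝ)) =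
      (2 : ℝ) ^ (1 + 2 / (d : ℝ)) * (∑ i, ‖u i x‖ ^ 2) ^ (1 + 2 / (d : ℝ)) := by
    intro x
    exact Real.mul_rpow (by norm_num) (Finset.sum_nonneg fun i _ => by positivity)
  simp only [hsum, hpow] at hH
  rw [hK] at hH
  obtain ⟨h1, h2⟩ := hH
  have h20 : (0 : ℝ) < (2 : ℝ) ^ (1 + 2 / (d : ℝ)) := by positivity
  refine ⟨?_, ?_⟩
  · have h3 := h1.const_mul ((2 : ℝ) ^ (1 + 2 / (d : ℝ)))⁻¹
    refine h3.congr (Eventually.of_forall fun x => ?_)
    show ((2 : ℝ) ^ (1 + 2 / (d : ℝ)))⁻¹ * ((2 : ℝ) ^ (1 + 2 / (d : ℝ)) *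
      (∑ i, ‖u i x‖ ^ 2) ^ (1 + 2 / (d : ℝ))) = _
    field_simp
  · rw [integral_const_mul] at h2
    have h4 : (3 / 4 : ℝ) ^ (1 / (d : ℝ)) * (2 : ℝ) ^ (1 + 2 / (d : ℝ)) =
        2 * (3 : ℝ) ^ (1 / (d : ℝ)) := by
      have e1 : (2 : ℝ) ^ (1 + 2 / (d : ℝ)) = 2 * (4 : ℝ) ^ (1 / (d : ℝ)) := by
        rw [Real.rpow_add (by norm_num), Real.rpow_one]
        congr 1
        have e2 : (2 : ℝ) / d = 2 * (1 / d) := by ring
        rw [e2, Real.rpow_mul (by norm_num)]
        norm_num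
      rw [e1]
      have e3 : (3 : ℝ) ^ (1 / (d : ℝ)) = (3 / 4 : ℝ) ^ (1 / (d : ℝ)) * (4 : ℝ) ^ (1 / (d : ℝ)) := by
        rw [← Real.mul_rpow (by norm_num) (by norm_num)]
        norm_num
      rw [e3]
      ring
    have h5 : (3 / 4 : ℝ) ^ (1 / (d : ℝ)) * LTd.Kcl d * ((2 : ℝ) ^ (1 + 2 / (d : ℝ)) *
        ∫ x, (∑ i, ‖u i x‖ ^ 2) ^ (1 + 2 / (d : ℝ))) =
        2 * ((3 : ℝ) ^ (1 / (d : ℝ)) * LTd.Kcl d *
          ∫ x, (∑ i, ‖u i x‖ ^ 2) ^ (1 + 2 / (d : ℝ))) := by
      calc _ = ((3 / 4 : ℝ) ^ (1 / (d : ℝ)) * (2 : ℝ) ^ (1 + 2 / (d : ℝ))) * LTd.Kcl d *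
          ∫ x, (∑ i, ‖u i x‖ ^ 2) ^ (1 + 2 / (d : ℝ)) := by ring
        _ = _ := by rw [h4]; ring
    rw [h5] at h2
    linarith

end Pool.Agent.U688.OE
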